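import Pool.Agent.U188.TS.Main

/-!
# Sections over curves with a map to a product of elliptic curves with bounded `Ш[2^∞]`: the theorems
-/

set_option autoImplicit false
set_option linter.all false

namespace Pool.Agent.U188.TS

open NumberField IsDedekindDomain WeierstrassCurve MvPolynomial
open Pool.Agent.TH954
open Pool.Agent.TH942 (sw)
open Pool.Agent.TH841.NF.D (Sha)
open Pool.Agent.W620.SC (unramified)
open Pool.Agent.U860.DS (bs transp transp' bs_map si_bs disc_bs TorRat norm_two2)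
open Pool.Agent.R425.D (split_iso)
open scoped Classical

section

variable {K : Type} [Field K] [NumberField K] {n : ℕ} {W : Fin n → WeierstrassCurve ℤ}

/-- division points over the maximal unramified extension -/
theorem div_unram {F Ω M : Type} [Field F] [Field Ω] [Algebra K F] [Algebra F Ω]
    [Algebra K Ω] [IsScalarTower K F Ω] [IsAlgClosed Ω] {E : WeierstrassCurve K} {a b : K}
    (hE : E = sw a b) (hD : 4 * a ^ 3 + 27 * b ^ 2 ≠ 0)
    (j : AlgebraicClosure K →ₐ[K] Ω)
    (U : Set (ValuationSubring F)) (hU : ∀ O ∈ U, ∀ c : K, algebraMap K F c ∈ O)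
    [Field M] [Algebra F M] [Algebra K M] [IsScalarTower K F M] (e : M →ₐ[F] Ω)
    (he : unramified F Ω U ≤ e.fieldRange)
    (P : (E.baseChange F).toAffine.Point) {N : ℕ} (hN : 1 ≤ N) :
    ∃ Q : (E.baseChange M).toAffine.Point, N • Q = pm E (IsScalarTower.toAlgHom K F M) P := by
  subst hE
  exact exists_div_unram hD j U hU e he P hN

section one

variable {F M B : Type} [Field F] [Field M] [Field B] [Algebra K F]
  [Algebra F M] [Algebra K M] [IsScalarTower K F M] [Algebra K B] [IsAlgClosure K B]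
  [Algebra.IsAlgebraic F M]

/-- **Sections come from rational points at the 2-adic places.** -/
theorem sections_two (hW : ∀ i, (W i).a₁ = 0 ∧ (W i).a₂ = 0 ∧ (W i).a₃ = 0)
    (hΔ : ∀ i, (W i).Δ ≠ 0) (hR : ∀ i, TorRat (W i)) (M0 : Fin n → ℕ) (hM : ∀ i, 0 < M0 i)
    (hfin : ∀ i, Finite (bs (W i) K).toAffine.Point)
    (hsha : ∀ i, ∀ (j : ℕ) (s : Sha (bs (W i) K)), 2 ^ j • s = 0 → M0 i • s = 0)
    {S : Set (MvPolynomial (Fin n × Fin 3) K)} (hS : ∀ f ∈ S, ∃ d, MultiHom d f)
    (P : (i : Fin n) → ((bs (W i) K).baseChange F).toAffine.Point)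
    (hPS : OnX S (fun i => crd (P i))) (s : GalSection K F M B)
    (pl : ∀ v : HeightOneSpectrum (𝓞 K), Plc K M (AlgebraicClosure (v.adicCompletion K)))
    (hp : ∀ v, s.GivenBy (v.adicCompletion K) (pl v))
    (hdiv : ∀ (k : ℕ) (i : Fin n), ∃ Q : ((bs (W i) K).baseChange M).toAffine.Point,
      2 ^ k • Q = pm (bs (W i) K) (IsScalarTower.toAlgHom K F M) (P i))
    (v : HeightOneSpectrum (𝓞 K)) (hv1 : Ideal.absNorm v.asIdeal = 2)
    (hv2 : v.valuation K ((2 : ℕ) : K) = WithZero.exp (-1 : ℤ)) :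
    ∃ x : (i : Fin n) → ((bs (W i) K).baseChange K).toAffine.Point,
      OnX S (fun i => crd (x i)) ∧
      (∀ i, (pl v).Spec (fun j => algebraMap F M (crd (P i) j)) (fun j =>
        algebraMap K (AlgebraicClosure (v.adicCompletion K)) (crd (x i) j))) ∧
      ∀ (k : ℕ) (i : Fin n), LiftsDiff s (bs (W i) K) (P i) (x i) (2 ^ k) := by
  have h1 : ∀ i, ∃ y, ∀ k : ℕ, LiftsDiff s (bs (W i) K) (P i) y (2 ^ k) := by
    intro i
    obtain ⟨m, hm⟩ := kill_pow (G := Sha (bs (W i) K)) (hM i)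
    refine exists_one (E := bs (W i) K) (hfin i) fun k => ?_
    obtain ⟨Q, hQ⟩ := hdiv (k + (m + 1)) i
    exact core_E (bs_sw (hW i)) (disc_sw (hW i) (hΔ i))
      (fun j t ht => hm j t ht (hsha i j t ht)) s pl hp (P i) Q hQ
  choose y hy using h1
  obtain ⟨Pv, h4, h5, h6⟩ := local_all (fun i => bs_sw (K := K) (hW i))
    (fun i => disc_sw (hW i) (hΔ i)) hS P hPS s pl hp v
  have h7 := fun i => rational_of (hW i) (hΔ i) (hR i) (hfin i) v hv1 hv2 (Pv i) (y i)
    (fun k => h6 i _ _ (hy i k))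
  choose x m hm hxy hx using h7
  have hxc : ∀ i j, crd (Pv i) j = algebraMap K (v.adicCompletion K) (crd (x i) j) := by
    intro i j
    rw [hx i]
    exact crd_pm _ _ _
  refine ⟨x, fun f hf => ?_, fun i => ?_, fun k i => (hy i k).odd (hm i) (hxy i)⟩
  · have h8 := h4 f hf
    have h9 : (fun p : Fin n × Fin 3 => crd (Pv p.1) p.2) =
        fun p => algebraMap K (v.adicCompletion K) (crd (x p.1) p.2) := by
      funext p
      exact hxc p.1 p.2
    have h10 := aeval_algebraMap_apply (v.adicCompletion K)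
      (fun t : Fin n × Fin 3 => crd (x t.1) t.2) f
    have h11 : algebraMap K (v.adicCompletion K)
        (aeval (fun t : Fin n × Fin 3 => crd (x t.1) t.2) f) = 0 :=
      h10.symm.trans ((congrArg (fun w => aeval w f) h9.symm).trans h8)
    exact (map_eq_zero _).1 h11
  · have h8 := h5 i
    have h9 : (fun j => algebraMap (v.adicCompletion K) (AlgebraicClosure (v.adicCompletion K))
        (crd (Pv i) j)) = fun j => algebraMap K (AlgebraicClosure (v.adicCompletion K))
        (crd (x i) j) := by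
      funext j
      rw [hxc, ← IsScalarTower.algebraMap_apply]
    rw [h9] at h8
    exact h8

end one

/-- **No sections of finite level.** -/
theorem no_section (hW : ∀ i, (W i).a₁ = 0 ∧ (W i).a₂ = 0 ∧ (W i).a₃ = 0)
    (hΔ : ∀ i, (W i).Δ ≠ 0) (hR : ∀ i, TorRat (W i)) (M0 : Fin n → ℕ) (hM : ∀ i, 0 < M0 i)
    (hfin : ∀ i, Finite (bs (W i) K).toAffine.Point)
    (hsha : ∀ i, ∀ (j : ℕ) (s : Sha (bs (W i) K)), 2 ^ j • s = 0 → M0 i • s = 0)
    (v : HeightOneSpectrum (𝓞 K)) (hv1 : Ideal.absNorm v.asIdeal = 2)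
    (hv2 : v.valuation K ((2 : ℕ) : K) = WithZero.exp (-1 : ℤ))
    {S : Set (MvPolynomial (Fin n × Fin 3) K)} (hS : ∀ f ∈ S, ∃ d, MultiHom d f)
    (hX : ∀ y : (i : Fin n) → ((bs (W i) K).baseChange K).toAffine.Point,
      ¬ OnX S (fun i => crd (y i))) :
    ∃ k : ℕ, ∀ (F M B : Type) [Field F] [Field M] [Field B] [Algebra K F]
      [Algebra F M] [Algebra K M] [Algebra K B] [IsScalarTower K F M] [IsAlgClosure K B]
      [Algebra.IsAlgebraic F M]
      (P : (i : Fin n) → ((bs (W i) K).baseChange F).toAffine.Point),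
      OnX S (fun i => crd (P i)) →
      (∀ i, ∃ Q : ((bs (W i) K).baseChange M).toAffine.Point,
        2 ^ k • Q = pm (bs (W i) K) (IsScalarTower.toAlgHom K F M) (P i)) →
      ¬ ∃ (s : GalSection K F M B) (pl : ∀ v : HeightOneSpectrum (𝓞 K),
          Plc K M (AlgebraicClosure (v.adicCompletion K))),
          ∀ v, s.GivenBy (v.adicCompletion K) (pl v) := by
  have : CharZero (v.adicCompletion K) :=
    charZero_of_injective_algebraMap (algebraMap K (v.adicCompletion K)).injective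
  obtain ⟨e⟩ := split_iso v hv1 hv2
  let g : v.adicCompletion K →+* ℚ_[2] := e.symm.toRingHom
  let θ : K →+* ℚ_[2] := g.comp (algebraMap K (v.adicCompletion K))
  have hψ : ∀ i, ∃ ψ : (bs (W i) ℚ).toAffine.Point → ((bs (W i) K).baseChange K).toAffine.Point,
      ∀ P j, crd (ψ P) j = algebraMap ℚ K (crd P j) := fun i =>
    transp' (algebraMap ℚ K) _ _ (bs_map (W i) _)
  choose ψ hψ using hψ
  have hθ : ∀ q : ℚ, θ (algebraMap ℚ K q) = algebraMap ℚ ℚ_[2] q := by
    intro q
    have e1 : θ.comp (algebraMap ℚ K) = algebraMap ℚ ℚ_[2] := Subsingleton.elim _ _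
    rw [← e1]
    rfl
  have hfin' : ∀ i, Finite ((bs (W i) K).baseChange K).toAffine.Point := hfin
  have hcard : ∀ i, 0 < Nat.card ((bs (W i) K).baseChange K).toAffine.Point := fun i =>
    Nat.card_pos
  obtain ⟨k, hk⟩ := Pool.Agent.U860.DS.loc_mod norm_two2 (fun i => bs (W i) ℚ_[2])
    (fun i => si_bs (W i) (hW i).1 (hW i).2.1 (hW i).2.2)
    (fun i => disc_bs (W i) (hW i).1 (hW i).2.1 (hW i).2.2 (hΔ i))
    {f | ∃ h ∈ S, f = map θ h}
    (by
      rintro f ⟨h, hh, rfl⟩
      obtain ⟨d, hd⟩ := hS h hh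
      exact ⟨d, fun m hm => hd m (MvPolynomial.support_map_subset _ _ hm)⟩)
    (fun i => Nat.card ((bs (W i) K).baseChange K).toAffine.Point) hcard
    (by
      intro P hP
      by_contra hcon
      push Not at hcon
      choose m hm1 hm2 using hcon
      choose y hy using fun i => hR i (P i) (m i) (hm1 i) (hm2 i)
      refine hX (fun i => ψ i (y i)) fun f hf => ?_
      have h1 := hP (map θ f) ⟨f, hf, rfl⟩
      have e2 : (fun p : Fin n × Fin 3 => crd (P p.1) p.2) =
          fun p => θ (crd (ψ p.1 (y p.1)) p.2) := by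
        funext p
        rw [hψ, hθ]
        exact hy p.1 p.2
      rw [e2, eval_map] at h1
      have h2 : eval₂ θ (fun p => θ (crd (ψ p.1 (y p.1)) p.2)) f =
          θ (eval (fun p => crd (ψ p.1 (y p.1)) p.2) f) :=
        (eval₂_comp_left θ (RingHom.id K) _ f).symm
      rw [h2, map_eq_zero] at h1
      exact h1)
  choose m hm using fun i => kill_pow (G := Sha (bs (W i) K)) (hM i)
  set mm := Finset.univ.sup m with hmm
  have hle : ∀ i, m i ≤ mm := fun i => Finset.le_sup (Finset.mem_univ i)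
  refine ⟨k + (mm + 1), ?_⟩
  intro F M B _ _ _ _ _ _ _ _ _ _ P hPS hdiv
  rintro ⟨s, pl, hp⟩
  have h1 : ∀ i, ∃ y, LiftsDiff s (bs (W i) K) (P i) y (2 ^ k) := by
    intro i
    obtain ⟨Q, hQ⟩ := hdiv i
    refine core_E (bs_sw (hW i)) (disc_sw (hW i) (hΔ i)) (m := mm)
      (fun j t ht => ?_) s pl hp (P i) Q hQ
    obtain ⟨l, hl⟩ := Nat.exists_eq_add_of_le (hle i)
    rw [hl, pow_add, mul_comm, mul_smul, hm i j t ht (hsha i j t ht), smul_zero]
  choose y hy using h1
  obtain ⟨Pv, h4, -, h6⟩ := local_all (fun i => bs_sw (K := K) (hW i))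
    (fun i => disc_sw (hW i) (hΔ i)) hS P hPS s pl hp v
  choose z hz using fun i => h6 i _ _ (hy i)
  have hφ : ∀ i, ∃ φ : ((bs (W i) K).baseChange (v.adicCompletion K)).toAffine.Point →+
      (bs (W i) ℚ_[2]).toAffine.Point, ∀ P j, crd (φ P) j = g (crd P j) := by
    intro i
    refine transp g _ _ ?_
    show ((bs (W i) K).map (algebraMap K (v.adicCompletion K))).map g = _
    rw [bs_map, bs_map]
  choose φ hφ using hφ
  obtain ⟨i, hi⟩ := hk (fun i => φ i (Pv i)) (by
    rintro f ⟨h, hh, rfl⟩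
    have h1 := h4 h hh
    rw [aeval_def] at h1
    have h2 := congrArg g h1
    rw [map_zero, MvPolynomial.hom_eval₂] at h2
    rw [eval_map]
    rw [← h2]
    congr 1
    funext p
    exact hφ p.1 (Pv p.1) p.2)
  apply hi (φ i (Nat.card ((bs (W i) K).baseChange K).toAffine.Point • z i))
  have hcy : Nat.card ((bs (W i) K).baseChange K).toAffine.Point • y i = 0 :=
    card_nsmul_eq_zero'
  rw [← map_nsmul, ← map_nsmul]
  congr 1
  rw [hz i, smul_add, ← map_nsmul, hcy, map_zero, zero_add, ← mul_smul, ← mul_smul, mul_comm]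

end

end Pool.Agent.U188.TS
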