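import Pool.Agent.U860.DS.Short
import Pool.Agent.U860.DS.Ex
import Pool.Agent.U796.GE.BND
import Pool.Agent.N273.PQ.FinM
import Pool.Agent.Y655.XT.Shavc

/-!
# Elliptic curves with a rational point of order two and smallest possible Selmer groups

The lemmas `fg_wc`, `fin_gen`, `pow_tors` are copied from `Pool/Agent/U115/XP/Fin.lean` and
`short_of_triv` from `Pool/Agent/U860/DS/Fam.lean`.
-/

set_option autoImplicit false
set_option linter.all false

open scoped Classical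

namespace Pool.Agent.U188.TS

open Pool.Agent.Y682 (wc)
open Pool.Agent.TH841.NF.D (rk Sha)
open Pool.Agent.N874.PP (sW)
open Pool.Agent.U860.DS (bs sh sh_vr)
open Pool.Agent.U115.GE (sel SelSet)

section mw

attribute [-instance] DivisionRing.toRatAlgebra

/-- Mordell-Weil -/
theorem fg_wc (K : Type) [Field K] [NumberField K] (a b : K) (hb : b ≠ 0)
    (hab : a ^ 2 - 4 * b ≠ 0) : AddGroup.FG (wc a b).toAffine.Point := by
  have h3 : (3 : K) ≠ 0 := by norm_num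
  have h27 : (27 : K) ≠ 0 := by norm_num
  set A : K := b - a ^ 2 / 3 with hA
  set B : K := 2 * a ^ 3 / 27 - a * b / 3 with hB
  have hAB : 4 * A ^ 3 + 27 * B ^ 2 ≠ 0 := by
    have h1 : 4 * A ^ 3 + 27 * B ^ 2 = -(b ^ 2 * (a ^ 2 - 4 * b)) := by
      rw [hA, hB]; field_simp; ring
    rw [h1]
    exact neg_ne_zero.2 (mul_ne_zero (pow_ne_zero 2 hb) hab)
  have hΔ : (wc a b).Δ ≠ 0 := by
    have h1 : (wc a b).Δ = 16 * (b ^ 2 * (a ^ 2 - 4 * b)) := by
      unfold wc WeierstrassCurve.Δ WeierstrassCurve.b₂ WeierstrassCurve.b₄ WeierstrassCurve.b₆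
        WeierstrassCurve.b₈
      simp only
      ring
    rw [h1]
    exact mul_ne_zero (by norm_num) (mul_ne_zero (pow_ne_zero 2 hb) hab)
  obtain ⟨⟨e⟩, -⟩ := Pool.Agent.Y655.XT.s_shavc K (wc a b) (sW A B)
    ⟨1, -a / 3, 0, 0⟩ hΔ (by
      unfold wc sW
      ext
      · simp [WeierstrassCurve.variableChange_def]
      · simp [WeierstrassCurve.variableChange_def]; field_simp; ring
      · simp [WeierstrassCurve.variableChange_def]
      · simp [WeierstrassCurve.variableChange_def, hA]; field_simp; ring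
      · simp [WeierstrassCurve.variableChange_def, hB]; field_simp; ring)
  have h1 := Pool.Agent.N273.PQ.mw K A B hAB
  have h2 : AddGroup.FG (sW A B).toAffine.Point := by
    refine Pool.Agent.N273.PQ.fg_of_eq ?_ h1
    unfold sW WeierstrassCurve.baseChange
    ext <;> simp
  exact AddGroup.fg_of_surjective (f := (e.symm : (sW A B).toAffine.Point →+ _)) e.symm.surjective

/-- rank zero and finitely many elements -/
theorem fin_gen {A : Type} [AddCommGroup A] (hA : AddGroup.FG A) :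
    Module.finrank ℤ A = 0 ↔ Finite A := by
  haveI : Module.Finite ℤ A := Module.Finite.iff_addGroup_fg.2 hA
  constructor
  · intro h
    exact Module.finite_of_fg_torsion _ (Module.finrank_eq_zero_iff_isTorsion.1 h)
  · intro h
    refine Module.finrank_eq_zero_iff_isTorsion.2 ?_
    intro x
    refine ⟨⟨(Nat.card A : ℤ), ?_⟩, ?_⟩
    · rw [mem_nonZeroDivisors_iff_ne_zero]
      exact_mod_cast Nat.card_pos.ne'
    · show (Nat.card A : ℤ) • x = 0
      rw [natCast_zsmul]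
      exact card_nsmul_eq_zero'

/-- rank zero and finitely many points -/
theorem fin_wc (K : Type) [Field K] [NumberField K] (a b : K) (hb : b ≠ 0)
    (hab : a ^ 2 - 4 * b ≠ 0) : rk (wc a b) = 0 ↔ Finite (wc a b).toAffine.Point :=
  fin_gen (fg_wc K a b hb hab)

/-- two-power torsion -/
theorem pow_tors {G : Type} [AddCommGroup G] (h : ∀ x : G, 2 • x = 0 → x = 0) :
    ∀ (n : ℕ) (x : G), 2 ^ n • x = 0 → x = 0 := by
  intro n
  induction n with
  | zero => intro x hx; rwa [pow_zero, one_nsmul] at hx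
  | succ n ih =>
    intro x hx
    apply h
    apply ih
    rw [← mul_nsmul', ← pow_succ]
    exact hx

/-- smallest possible Selmer groups -/
theorem triv_wc {a b : ℤ} (hb : b ≠ 0) (hc : a ^ 2 - 4 * b ≠ 0)
    (h4 : sel a b * sel (-2 * a) (a ^ 2 - 4 * b) = 4) :
    Finite (wc (a : ℚ) (b : ℚ)).toAffine.Point ∧
      ∀ (n : ℕ) (x : Sha (wc (a : ℚ) (b : ℚ))), 2 ^ n • x = 0 → x = 0 := by
  obtain ⟨hfin, hb4⟩ := Pool.Agent.U796.GE.t_BND a b hb hc
  rw [h4] at hb4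
  have hX0 : 0 < Nat.card {x : Sha (wc (a : ℚ) (b : ℚ)) // 2 • x = 0} :=
    Nat.card_pos_iff.2 ⟨⟨⟨0, smul_zero 2⟩⟩, hfin⟩
  set X := Nat.card {x : Sha (wc (a : ℚ) (b : ℚ)) // 2 • x = 0} with hX
  set r := rk (wc (a : ℚ) (b : ℚ)) with hr
  have h2r : 0 < 2 ^ r := by positivity
  have hX1 : X = 1 := by nlinarith
  have hr0 : r = 0 := by
    by_contra h0
    have : 2 ≤ 2 ^ r := by
      calc 2 = 2 ^ 1 := by norm_num
        _ ≤ 2 ^ r := Nat.pow_le_pow_right (by norm_num) (by omega)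
    nlinarith
  have hb0 : (b : ℚ) ≠ 0 := by exact_mod_cast hb
  have hc0 : (a : ℚ) ^ 2 - 4 * (b : ℚ) ≠ 0 := by exact_mod_cast hc
  refine ⟨(fin_wc ℚ _ _ hb0 hc0).1 hr0, pow_tors fun y hy => ?_⟩
  have h4 := (Nat.card_eq_one_iff_unique.1 hX1).1
  exact congrArg Subtype.val (h4.elim ⟨y, hy⟩ ⟨0, smul_zero 2⟩)

end mw

variable {a b : ℤ}

theorem b_ne (nb : ¬ IsSquare b) : b ≠ 0 := by
  rintro rfl
  exact nb ⟨0, by norm_num⟩

theorem c_ne (nc : ¬ IsSquare (a ^ 2 - 4 * b)) : a ^ 2 - 4 * b ≠ 0 := by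
  intro h
  exact nc ⟨0, by rw [h]; norm_num⟩

/-- the short equation -/
theorem short_of_triv (hb : b ≠ 0) (hc : a ^ 2 - 4 * b ≠ 0) {D : ℕ} (hD : D ≠ 0)
    (h : Finite (⟨0, (a : ℚ) * (D : ℚ), 0, (b : ℚ) * (D : ℚ) ^ 2, 0⟩ :
      WeierstrassCurve ℚ).toAffine.Point ∧ ∀ (n : ℕ) (x : Sha
      (⟨0, (a : ℚ) * (D : ℚ), 0, (b : ℚ) * (D : ℚ) ^ 2, 0⟩ : WeierstrassCurve ℚ)),
      2 ^ n • x = 0 → x = 0) : Finite (bs (sh a b D) ℚ).toAffine.Point ∧
      ∀ (j : ℕ) (s : Sha (bs (sh a b D) ℚ)), 2 ^ j • s = 0 → 1 • s = 0 := by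
  have hb' : (b : ℚ) ≠ 0 := by exact_mod_cast hb
  have hc' : (a : ℚ) ^ 2 - 4 * b ≠ 0 := by exact_mod_cast hc
  have hD' : (D : ℚ) ≠ 0 := by exact_mod_cast hD
  have hvr := sh_vr a b D
  have hΔ : (⟨0, (a : ℚ) * (D : ℚ), 0, (b : ℚ) * (D : ℚ) ^ 2, 0⟩ : WeierstrassCurve ℚ).Δ ≠ 0 := by
    have e : (⟨0, (a : ℚ) * (D : ℚ), 0, (b : ℚ) * (D : ℚ) ^ 2, 0⟩ : WeierstrassCurve ℚ).Δ =
        16 * b ^ 2 * (a ^ 2 - 4 * b) * D ^ 6 := by
      simp only [WeierstrassCurve.Δ, WeierstrassCurve.b₂, WeierstrassCurve.b₄, WeierstrassCurve.b₆,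
        WeierstrassCurve.b₈]
      ring
    rw [e]
    exact mul_ne_zero (mul_ne_zero (mul_ne_zero (by norm_num) (pow_ne_zero 2 hb')) hc')
      (pow_ne_zero 6 hD')
  obtain ⟨h1, h2⟩ := h
  refine ⟨Finite.of_equiv _ (Equiv.ofBijective _ (hvr.fn_bij hΔ)), fun j s hs => ?_⟩
  have h3 : ∀ s : Sha (bs (sh a b D) ℚ), 2 • s = 0 → s = 0 :=
    Pool.Agent.R425.D.sha_vr hvr hΔ (fun s hs => h2 1 s (by rw [pow_one]; exact hs))
  rw [one_smul]
  induction j generalizing s with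
  | zero => rwa [pow_zero, one_smul] at hs
  | succ j ih =>
    rw [pow_succ, mul_smul] at hs
    exact h3 s (ih _ hs)

end Pool.Agent.U188.TS
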