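import Pool.Agent.U860.DS.Thm
import Pool.Agent.TH954.SEt2
import Pool.Agent.TH954.SArch

/-!
# Sections lift to the coverings of degree a power of two, up to rational points
-/

set_option autoImplicit false
set_option linter.all false

namespace Pool.Agent.U188.TS

open NumberField IsDedekindDomain WeierstrassCurve MvPolynomial
open Pool.Agent.TH954
open Pool.Agent.TH942 (sw)
open Pool.Agent.TH841.NF.D (Sha)
open scoped Classical

section

/-- a group killed by a number and by powers of two is killed by a bounded power of two -/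
lemma kill_pow {G : Type} [AddCommGroup G] {M : ℕ} (hM : 0 < M) :
    ∃ m : ℕ, ∀ (j : ℕ) (s : G), 2 ^ j • s = 0 → M • s = 0 → 2 ^ m • s = 0 := by
  obtain ⟨m, u, hu, rfl⟩ := Nat.exists_eq_two_pow_mul_odd hM.ne'
  refine ⟨m, fun j s h1 h2 => ?_⟩
  have hco : Nat.Coprime (2 ^ j) u := (Nat.coprime_two_left.2 hu).pow_left j
  have h3 : addOrderOf (2 ^ m • s) ∣ 2 ^ j :=
    addOrderOf_dvd_of_nsmul_eq_zero (by rw [smul_comm, h1, smul_zero])
  have h4 : addOrderOf (2 ^ m • s) ∣ u :=
    addOrderOf_dvd_of_nsmul_eq_zero (by rw [← mul_smul, mul_comm]; exact h2)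
  have h5 := Nat.dvd_gcd h3 h4
  rw [hco.gcd_eq_one, Nat.dvd_one] at h5
  exact AddMonoid.addOrderOf_eq_one_iff.1 h5

end

section

variable {K : Type} [Field K] [NumberField K] {M : Type} [Field M] [Algebra K M]

lemma charZero_comp (v : HeightOneSpectrum (𝓞 K)) : CharZero (v.adicCompletion K) :=
  charZero_of_injective_algebraMap (algebraMap K (v.adicCompletion K)).injective

/-- **The section lifts to the coverings, up to a rational point.** -/
theorem lifts_diff {a b : K} {m : ℕ} (hD : 4 * a ^ 3 + 27 * b ^ 2 ≠ 0)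
    (hkill : ∀ (j : ℕ) (s : Sha (sw a b)), 2 ^ j • s = 0 → 2 ^ m • s = 0) (A : SAct K M)
    {P : ((sw a b).baseChange M).toAffine.Point}
    (hP : ∀ τ, A.pt a b τ P = P) {k : ℕ}
    {Q : ((sw a b).baseChange M).toAffine.Point} (hQ : 2 ^ (k + (m + 1)) • Q = P)
    (htor : ∀ T : ((sw a b).baseChange M).toAffine.Point, 2 ^ (k + (m + 1)) • T = 0 →
      ∃ T0, pm (sw a b) A.j T0 = T)
    (pl : ∀ v : HeightOneSpectrum (𝓞 K), Plc K M (AlgebraicClosure (v.adicCompletion K)))
    (hpl : ∀ v, GeoPlc A (pl v)) :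
    ∃ (y : ((sw a b).baseChange K).toAffine.Point) (Q' : ((sw a b).baseChange M).toAffine.Point),
      2 ^ k • Q' = P - pm (sw a b) A.j (incl (sw a b) K y) ∧
      ∀ τ, A.pt a b τ Q' = Q' := by
  have hcv' : ∀ v : HeightOneSpectrum (𝓞 K), CharZero (AlgebraicClosure (v.adicCompletion K)) :=
    fun v => by
      have := charZero_comp v
      exact charZero_of_injective_algebraMap
        (algebraMap (v.adicCompletion K) (AlgebraicClosure (v.adicCompletion K))).injective
  choose red h1 h2 using fun v => exists_redM (pl v) hD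
  obtain ⟨ξ, hξ, hξN, hξj⟩ := exists_cocycle A hQ hP htor
  have hloc : ∀ v σ τ, Compat ((pl v).iot A.j) σ τ →
      pm (sw a b) ((pl v).iot A.j) (ξ τ) = act (sw a b) σ (red v Q) - red v Q :=
    fun v => (cocycle_local A (hpl v) (h1 v) (h2 v) hξj).1
  -- twice the class is in the Tate-Shafarevich group
  have hco2 : IsCocycle (sw a b) (fun σ => 2 • ξ σ) := by
    refine ⟨fun σ τ => ?_, ?_⟩
    · change 2 • ξ (σ * τ) = 2 • ξ σ + act (sw a b) σ (2 • ξ τ)
      rw [hξ.1 σ τ, ns_add, act_nsmul]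
    · obtain ⟨F, hF, h⟩ := hξ.2
      exact ⟨F, hF, fun σ τ hστ => by
        change 2 • ξ σ = 2 • ξ τ
        rw [h σ τ hστ]⟩
  obtain ⟨R, -, -, hR0⟩ := Pool.Agent.U860.DS.cocycle_mod (2 ^ m) hkill (k + (m + 1))
    (fun σ => 2 • ξ σ) hco2 (fun σ => by
      change 2 ^ (k + (m + 1)) • (2 • ξ σ) = 0
      rw [← mul_smul, mul_comm, mul_smul, hξN]
      exact nsmul_zero 2) (fun v => by
      refine ⟨(pl v).iot A.j, 2 • red v Q, fun σ τ hστ => ?_⟩
      change pm (sw a b) _ (2 • ξ τ) = _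
      rw [map_nsmul, hloc v σ τ hστ, act_nsmul, ns_sub]) (fun w =>
      trivial_two hξ.1 w.Completion (twoGal_inf w))
  have hR : ∀ σ, 2 ^ (m + 1) • ξ σ = act (sw a b) σ R - R := by
    intro σ
    rw [← hR0 σ, pow_succ, mul_smul]
  obtain ⟨y, hy⟩ : ∃ y : ((sw a b).baseChange K).toAffine.Point,
      incl (sw a b) K y = 2 ^ k • R := by
    refine exists_of_fixed (L := K) (2 ^ k • R) fun σ => ?_
    have e1 : act (sw a b) σ R = R + 2 ^ (m + 1) • ξ σ := by
      rw [hR σ]
      abel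
    rw [act_nsmul, e1, ns_add, ← mul_smul, ← pow_add, hξN, add_zero]
  refine ⟨y, 2 ^ (m + 1) • Q - pm (sw a b) A.j R, ?_, fun τ => ?_⟩
  · rw [smul_sub, ← mul_smul, ← pow_add, hQ, hy, ← map_nsmul]
  · have e1 : A.pt a b τ (2 ^ (m + 1) • Q - pm (sw a b) A.j R) =
        2 ^ (m + 1) • A.pt a b τ Q - A.pt a b τ (pm (sw a b) A.j R) := by
      have e0 : A.pt a b τ (2 ^ (m + 1) • Q - pm (sw a b) A.j R) =
        A.pt a b τ (2 ^ (m + 1) • Q) - A.pt a b τ (pm (sw a b) A.j R) := map_sub _ _ _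
      have e00 : A.pt a b τ (2 ^ (m + 1) • Q) = 2 ^ (m + 1) • A.pt a b τ Q :=
        map_nsmul _ _ _
      rw [e0, e00]
    have e2 : A.pt a b τ Q = pm (sw a b) A.j (ξ τ) + Q := by
      rw [hξj τ, sub_add_cancel]
    have e3 : A.pt a b τ (pm (sw a b) A.j R) =
        pm (sw a b) A.j (act (sw a b) τ R) := A.pt_j _ _
    have e4 : act (sw a b) τ R = 2 ^ (m + 1) • ξ τ + R := by
      rw [hR τ, sub_add_cancel]
    rw [e1, e2, e3, e4, smul_add, map_add, map_nsmul]
    abel

/-- the local point of a point fixed by the section -/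
theorem local_fix {a b : K} (A : SAct K M) {L : Type} [Field L] [CharZero L] [Algebra K L]
    {pl : Plc K M (AlgebraicClosure L)} (hpl : GeoPlc A pl)
    {red : ((sw a b).baseChange M).toAffine.Point →+ AlgPt (sw a b) L}
    (h1 : ∀ x y h, x ∉ pl.W → red (.some x y h) = 0)
    (h2 : ∀ x y h (hx : x ∈ pl.W), ∃ (hy : y ∈ pl.W)
      (h' : ((sw a b).baseChange (AlgebraicClosure L)).toAffine.Nonsingular
        (pl.ρ ⟨x, hx⟩) (pl.ρ ⟨y, hy⟩)), red (.some x y h) = .some _ _ h')
    {Q : ((sw a b).baseChange M).toAffine.Point} (hQ : ∀ τ, A.pt a b τ Q = Q) :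
    ∃ z : ((sw a b).baseChange L).toAffine.Point, incl (sw a b) L z = red Q := by
  refine exists_of_fixed _ (fun σ => ?_)
  refine (cocycle_local A hpl h1 h2 (Q := Q) (ξ := fun _ => 0) (fun σ => ?_)).2 Q hQ σ
  rw [map_zero, hQ, sub_self]

/-- the local points of a section -/
theorem locals_diff {a b : K} (hD : 4 * a ^ 3 + 27 * b ^ 2 ≠ 0) (A : SAct K M)
    {v : HeightOneSpectrum (𝓞 K)} {pl : Plc K M (AlgebraicClosure (v.adicCompletion K))}
    (hp : GeoPlc A pl) (P : ((sw a b).baseChange M).toAffine.Point) (hP : ∀ τ, A.pt a b τ P = P) :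
    ∃ Pv : ((sw a b).baseChange (v.adicCompletion K)).toAffine.Point,
      (∃ u : M, u ≠ 0 ∧ ∀ j, ∃ h : u * crd P j ∈ pl.W, pl.ρ ⟨_, h⟩ =
          algebraMap (v.adicCompletion K) (AlgebraicClosure (v.adicCompletion K)) (crd Pv j)) ∧
      ∀ (N : ℕ) (y : ((sw a b).baseChange K).toAffine.Point)
        (Q' : ((sw a b).baseChange M).toAffine.Point),
        N • Q' = P - pm (sw a b) A.j (incl (sw a b) K y) → (∀ τ, A.pt a b τ Q' = Q') →
        ∃ z : ((sw a b).baseChange (v.adicCompletion K)).toAffine.Point,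
          Pv = pm (sw a b) (Algebra.ofId K (v.adicCompletion K)) y + N • z := by
  have := charZero_comp v
  have hc : CharZero (AlgebraicClosure (v.adicCompletion K)) :=
    charZero_of_injective_algebraMap
        (algebraMap (v.adicCompletion K) (AlgebraicClosure (v.adicCompletion K))).injective
  obtain ⟨red, h1, h2⟩ := exists_redM pl hD
  obtain ⟨Pv, hPv⟩ := local_fix A hp h1 h2 hP
  refine ⟨Pv, ?_, fun N y Q' hQ' hf => ?_⟩
  · obtain ⟨u, hu0, hu⟩ := red_crd (pl := pl) (red := red) (map_zero red) h1 h2 P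
    refine ⟨u, hu0, fun j => ?_⟩
    obtain ⟨h3, h4⟩ := hu j
    refine ⟨h3, h4.trans ?_⟩
    rw [← hPv]
    exact Pool.Agent.TH954.crd_pm _ _ _
  · obtain ⟨z, hz⟩ := local_fix A hp h1 h2 hf
    refine ⟨z, incl_injective ?_⟩
    have e0 : incl (sw a b) (v.adicCompletion K)
        (pm (sw a b) (Algebra.ofId K (v.adicCompletion K)) y + N • z) =
        incl (sw a b) _ (pm (sw a b) (Algebra.ofId K (v.adicCompletion K)) y) +
        incl (sw a b) _ (N • z) := map_add (pm (sw a b) _) _ _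
    have e1 : incl (sw a b) (v.adicCompletion K) (N • z) = N • incl (sw a b) _ z :=
      map_nsmul (pm (sw a b) _) _ _
    have e2 : red (pm (sw a b) A.j (incl (sw a b) K y)) = pm (sw a b) (pl.iot A.j)
        (incl (sw a b) K y) := red_pm (pl := pl) (a := a) (b := b) (red := red) (map_zero red) h1 h2 A.j
      (pl.iot A.j) (pl.iot_spec A.j) _
    have e3 : incl (sw a b) (v.adicCompletion K)
        (pm (sw a b) (Algebra.ofId K (v.adicCompletion K)) y) = pm (sw a b) (pl.iot A.j)
        (incl (sw a b) K y) := by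
      unfold incl
      rw [pm_pm, pm_pm]
      congr 2
      apply AlgHom.ext
      intro z
      exact (((IsScalarTower.toAlgHom K (v.adicCompletion K)
        (AlgebraicClosure (v.adicCompletion K))).comp
        (Algebra.ofId K (v.adicCompletion K))).commutes z).trans
        (((pl.iot A.j).comp (IsScalarTower.toAlgHom K K (AlgebraicClosure K))).commutes z).symm
    have e4 : red P = red (N • Q') + red (pm (sw a b) A.j (incl (sw a b) K y)) := by
      rw [← map_add, hQ', sub_add_cancel]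
    rw [hPv, e0, e1, hz, e3, e4, e2, map_nsmul]
    abel

end

section

variable {K F M B : Type} [Field K] [NumberField K] [Field F] [Field M] [Field B] [Algebra K F]
  [Algebra F M] [Algebra K M] [IsScalarTower K F M] [Algebra K B] [IsAlgClosure K B]
  [Algebra.IsAlgebraic F M]

/-- The point `Q` is fixed by all `s g`. -/
def FixedBy (s : GalSection K F M B) (E : WeierstrassCurve K)
    (Q : (E.baseChange M).toAffine.Point) : Prop :=
  ∀ g : B ≃ₐ[K] B, pm E ((s.s g : M →ₐ[F] M).restrictScalars K) Q = Q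

/-- Some `N`-th division point over `M` of the difference of the point `P` over `F` and the point `y`
over `K` is fixed by all `s g`: the section `s` lifts to the `N`-covering of `P - y`. -/
def LiftsDiff (s : GalSection K F M B) (E : WeierstrassCurve K)
    (P : (E.baseChange F).toAffine.Point) (y : (E.baseChange K).toAffine.Point) (N : ℕ) : Prop :=
  ∃ Q : (E.baseChange M).toAffine.Point,
    N • Q = pm E (IsScalarTower.toAlgHom K F M) P - pm E (Algebra.ofId K M) y ∧ FixedBy s E Q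

omit [NumberField K] [IsScalarTower K F M] [IsAlgClosure K B] [Algebra.IsAlgebraic F M] in
lemma algHom_K {L : Type} [Field L] [Algebra K L] (f g : K →ₐ[K] L) : f = g := by
  apply AlgHom.ext
  intro x
  exact (f.commutes x).trans (g.commutes x).symm

lemma geo (s : GalSection K F M B)
    (pl : ∀ v : HeightOneSpectrum (𝓞 K), Plc K M (AlgebraicClosure (v.adicCompletion K)))
    (hp : ∀ v, s.GivenBy (v.adicCompletion K) (pl v)) (v : HeightOneSpectrum (𝓞 K)) :
    GeoPlc (toSAct s) (pl v) := by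
  intro σ τ hστ x
  refine hp v σ ((eqv K B).autCongr τ) ?_ x _ ⟨x.2, rfl⟩
  intro z c hc
  obtain ⟨y, rfl⟩ := (eqv K B).surjective z
  have e1 : (pl v).val ((toSAct s).j y) ((pl v).iot (toSAct s).j y) := Plc.val_j _ y
  have e2 : (pl v).val ((toSAct s).j (τ y)) ((pl v).iot (toSAct s).j (τ y)) := Plc.val_j _ (τ y)
  have e3 : s.j ((eqv K B).autCongr τ (eqv K B y)) = (toSAct s).j (τ y) := by
    change s.j (eqv K B (τ ((eqv K B).symm (eqv K B y)))) = _
    rw [AlgEquiv.symm_apply_apply]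
    rfl
  have e4 : (pl v).iot (toSAct s).j y = c := e1.unique hc
  rw [e3, ← e4, ← hστ y]
  exact e2

lemma fixedP (s : GalSection K F M B) {a b : K} (P : ((sw a b).baseChange F).toAffine.Point)
    (τ : AlgebraicClosure K ≃ₐ[K] AlgebraicClosure K) :
    (toSAct s).pt a b τ (pm (sw a b) (IsScalarTower.toAlgHom K F M) P) =
      pm (sw a b) (IsScalarTower.toAlgHom K F M) P := by
  change pm (sw a b) _ (pm (sw a b) _ P) = pm (sw a b) _ P
  rw [pm_pm]
  congr 2
  apply AlgHom.ext
  intro x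
  exact (s.s ((eqv K B).autCongr τ)).commutes x

lemma toSAct_pt (s : GalSection K F M B) {a b : K} (g : B ≃ₐ[K] B)
    (Q : ((sw a b).baseChange M).toAffine.Point) :
    (toSAct s).pt a b ((eqv K B).autCongr.symm g) Q =
      pm (sw a b) ((s.s g : M →ₐ[F] M).restrictScalars K) Q := by
  unfold SAct.pt
  congr 2
  apply AlgHom.ext
  intro z
  exact toSAct_s s g z

/-- the inclusion of rational points -/
lemma pm_incl (E : WeierstrassCurve K) (j : AlgebraicClosure K →ₐ[K] M)
    (y : (E.baseChange K).toAffine.Point) :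
    pm E j (incl E K y) = pm E (Algebra.ofId K M) y := by
  unfold incl
  rw [pm_pm]
  exact congrArg (fun f => pm E f y) (algHom_K _ _)

/-- **The section lifts to the coverings, up to a rational point.** -/
theorem core2 {a b : K} {m : ℕ} (hD : 4 * a ^ 3 + 27 * b ^ 2 ≠ 0)
    (hkill : ∀ (j : ℕ) (s : Sha (sw a b)), 2 ^ j • s = 0 → 2 ^ m • s = 0)
    (s : GalSection K F M B)
    (pl : ∀ v : HeightOneSpectrum (𝓞 K), Plc K M (AlgebraicClosure (v.adicCompletion K)))
    (hp : ∀ v, s.GivenBy (v.adicCompletion K) (pl v))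
    (P : ((sw a b).baseChange F).toAffine.Point) {k : ℕ}
    (Q : ((sw a b).baseChange M).toAffine.Point)
    (hQ : 2 ^ (k + (m + 1)) • Q = pm (sw a b) (IsScalarTower.toAlgHom K F M) P) :
    ∃ y : ((sw a b).baseChange K).toAffine.Point, LiftsDiff s (sw a b) P y (2 ^ k) := by
  obtain ⟨y, Q', h1, h2⟩ := lifts_diff hD hkill (toSAct s)
    (P := pm (sw a b) (IsScalarTower.toAlgHom K F M) P) (fixedP s P) (k := k) (Q := Q) hQ
    (fun T hT => torsion_mem_sub hD
      ((IsScalarTower.toAlgHom K M (AlgebraicClosure M)) : M →ₐ[K] AlgebraicClosure M)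
      (toSAct s).j (2 ^ (k + (m + 1))) (Nat.one_le_pow _ _ (by norm_num)) T hT) pl (geo s pl hp)
  refine ⟨y, Q', ?_, fun g => ?_⟩
  · rw [h1, pm_incl]
  · rw [← toSAct_pt]
    exact h2 _

/-- the local points of a section -/
theorem local2 {a b : K} (hD : 4 * a ^ 3 + 27 * b ^ 2 ≠ 0) (s : GalSection K F M B)
    {v : HeightOneSpectrum (𝓞 K)} {pl : Plc K M (AlgebraicClosure (v.adicCompletion K))}
    (hp : GeoPlc (toSAct s) pl) (P : ((sw a b).baseChange F).toAffine.Point) :
    ∃ Pv : ((sw a b).baseChange (v.adicCompletion K)).toAffine.Point,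
      (∃ u : M, u ≠ 0 ∧ ∀ j, ∃ h : u * algebraMap F M (crd P j) ∈ pl.W, pl.ρ ⟨_, h⟩ =
          algebraMap (v.adicCompletion K) (AlgebraicClosure (v.adicCompletion K)) (crd Pv j)) ∧
      ∀ (N : ℕ) (y : ((sw a b).baseChange K).toAffine.Point),
        LiftsDiff s (sw a b) P y N →
        ∃ z : ((sw a b).baseChange (v.adicCompletion K)).toAffine.Point,
          Pv = pm (sw a b) (Algebra.ofId K (v.adicCompletion K)) y + N • z := by
  obtain ⟨Pv, ⟨u, hu0, hu⟩, h2⟩ := locals_diff hD (toSAct s) hp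
    (pm (sw a b) (IsScalarTower.toAlgHom K F M) P) (fixedP s _)
  refine ⟨Pv, ⟨u, hu0, fun j => ?_⟩, fun N y hy => ?_⟩
  · obtain ⟨h3, h4⟩ := hu j
    have h5 : crd (pm (sw a b) (IsScalarTower.toAlgHom K F M) P) j =
        algebraMap F M (crd P j) := crd_pm _ _ _
    have key : ∀ x : M, x = crd (pm (sw a b) (IsScalarTower.toAlgHom K F M) P) j →
        ∃ h : u * x ∈ pl.W, pl.ρ ⟨_, h⟩ =
          algebraMap (v.adicCompletion K) (AlgebraicClosure (v.adicCompletion K)) (crd Pv j) := by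
      rintro x rfl
      exact ⟨h3, h4⟩
    exact key _ h5.symm
  · obtain ⟨Q, hQ, hf⟩ := hy
    refine h2 N y Q (by rw [hQ, pm_incl]) (fun τ => ?_)
    obtain ⟨g, rfl⟩ := (eqv K B).autCongr.symm.surjective τ
    rw [toSAct_pt, hf g]

lemma LiftsDiff.le {s : GalSection K F M B} {E : WeierstrassCurve K}
    {P : (E.baseChange F).toAffine.Point} {y : (E.baseChange K).toAffine.Point} {k m : ℕ}
    (hkm : k ≤ m) (h : LiftsDiff s E P y (2 ^ m)) : LiftsDiff s E P y (2 ^ k) := by
  obtain ⟨l, rfl⟩ := Nat.exists_eq_add_of_le hkm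
  obtain ⟨Q, hQ, hf⟩ := h
  refine ⟨2 ^ l • Q, by rw [← mul_smul, ← pow_add, hQ], fun g => ?_⟩
  rw [map_nsmul, hf g]

/-- one rational point for all powers of two -/
theorem exists_one {s : GalSection K F M B} {E : WeierstrassCurve K}
    (hfin : Finite (E.baseChange K).toAffine.Point) {P : (E.baseChange F).toAffine.Point}
    (h : ∀ k : ℕ, ∃ y, LiftsDiff s E P y (2 ^ k)) : ∃ y, ∀ k : ℕ, LiftsDiff s E P y (2 ^ k) := by
  by_contra hcon
  push Not at hcon
  choose k hk using hcon
  have := Fintype.ofFinite (E.baseChange K).toAffine.Point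
  obtain ⟨y, hy⟩ := h (Finset.univ.sup k)
  exact hk y (hy.le (Finset.le_sup (Finset.mem_univ y)))

/-- a change of the rational point by a point of odd order -/
theorem LiftsDiff.odd {s : GalSection K F M B} {E : WeierstrassCurve K}
    {P : (E.baseChange F).toAffine.Point} {x y : (E.baseChange K).toAffine.Point} {m k : ℕ}
    (hm : Odd m) (hxy : m • (x - y) = 0) (h : LiftsDiff s E P y (2 ^ k)) :
    LiftsDiff s E P x (2 ^ k) := by
  obtain ⟨Q, hQ, hf⟩ := h
  have hco : Nat.Coprime (2 ^ k) m := (Nat.coprime_two_left.2 hm).pow_left k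
  obtain ⟨t, ht⟩ : ∃ t : (E.baseChange K).toAffine.Point, 2 ^ k • t = x - y := by
    have h1 : ((Nat.gcdA (2 ^ k) m : ℤ) * (2 ^ k : ℕ) + (Nat.gcdB (2 ^ k) m : ℤ) * (m : ℕ) : ℤ) = 1 := by
      have h2 := Nat.gcd_eq_gcd_ab (2 ^ k) m
      rw [hco.gcd_eq_one] at h2
      rw [mul_comm, mul_comm (Nat.gcdB (2 ^ k) m)]
      exact h2.symm
    refine ⟨(Nat.gcdA (2 ^ k) m : ℤ) • (x - y), ?_⟩
    have h3 : (x - y) = (1 : ℤ) • (x - y) := (one_zsmul _).symm
    rw [← natCast_zsmul, ← mul_zsmul]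
    conv_rhs => rw [h3, ← h1, add_zsmul, mul_zsmul _ _ ((m : ℕ) : ℤ), natCast_zsmul, hxy,
      zsmul_zero, add_zero]
    rw [mul_comm]
  refine ⟨Q - pm E (Algebra.ofId K M) t, ?_, fun g => ?_⟩
  · rw [smul_sub, hQ, ← map_nsmul, ht, map_sub]
    abel
  · rw [map_sub, hf g, pm_pm]
    exact congrArg (fun f : K →ₐ[K] M => Q - pm E f t) (algHom_K _ _)

end

end Pool.Agent.U188.TS
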