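import Pool.Agent.U188.TS.Core

/-!
# Sections over curves with a map to a product of elliptic curves with bounded `Ш[2^∞]`
-/

set_option autoImplicit false
set_option linter.all false

namespace Pool.Agent.U188.TS

open NumberField IsDedekindDomain WeierstrassCurve MvPolynomial
open Pool.Agent.TH954
open Pool.Agent.TH942 (sw)
open Pool.Agent.TH841.NF.D (Sha)
open Pool.Agent.W620.SC (unramified)
open Pool.Agent.U860.DS (bs transp transp' bs_map si_bs disc_bs TorRat norm_two2)
open Pool.Agent.R425.D (split_iso)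
open scoped Classical

/-- a point is given by its coordinates -/
lemma crd_injective {L : Type} [Field L] {W : WeierstrassCurve L} {P Q : W.toAffine.Point}
    (h : crd P = crd Q) : P = Q := by
  rcases P with _ | ⟨x, y, hx⟩ <;> rcases Q with _ | ⟨x', y', hx'⟩
  · rfl
  · exact absurd (congrFun h 2) (by change (0 : L) ≠ 1; exact zero_ne_one)
  · exact absurd (congrFun h 2) (by change (1 : L) ≠ 0; exact one_ne_zero)
  · have e1 : x = x' := congrFun h 0
    have e2 : y = y' := congrFun h 1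
    subst e1 e2
    rfl

section

variable {K : Type} [Field K] [NumberField K] {n : ℕ}

/-- the curve over `K`, in the short form -/
lemma bs_sw {W : WeierstrassCurve ℤ} (hW : W.a₁ = 0 ∧ W.a₂ = 0 ∧ W.a₃ = 0) :
    bs W K = sw (W.a₄ : K) (W.a₆ : K) := by
  refine WeierstrassCurve.ext ?_ ?_ ?_ rfl rfl
  · show ((W.a₁ : ℤ) : K) = 0
    rw [hW.1, Int.cast_zero]
  · show ((W.a₂ : ℤ) : K) = 0
    rw [hW.2.1, Int.cast_zero]
  · show ((W.a₃ : ℤ) : K) = 0
    rw [hW.2.2, Int.cast_zero]

lemma disc_sw {W : WeierstrassCurve ℤ} (hW : W.a₁ = 0 ∧ W.a₂ = 0 ∧ W.a₃ = 0) (hΔ : W.Δ ≠ 0) :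
    4 * (W.a₄ : K) ^ 3 + 27 * (W.a₆ : K) ^ 2 ≠ 0 := by
  have e : W.Δ = -16 * (4 * W.a₄ ^ 3 + 27 * W.a₆ ^ 2) := by
    simp only [WeierstrassCurve.Δ, WeierstrassCurve.b₂, WeierstrassCurve.b₄, WeierstrassCurve.b₆,
      WeierstrassCurve.b₈, hW.1, hW.2.1, hW.2.2]
    ring
  intro h
  apply hΔ
  have h1 : ((4 * W.a₄ ^ 3 + 27 * W.a₆ ^ 2 : ℤ) : K) = 0 := by
    push_cast
    exact h
  rw [e, Int.cast_eq_zero.1 h1, mul_zero]

section one

variable {F M B : Type} [Field F] [Field M] [Field B] [Algebra K F]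
  [Algebra F M] [Algebra K M] [IsScalarTower K F M] [Algebra K B] [IsAlgClosure K B]
  [Algebra.IsAlgebraic F M]

/-- the section lifts, for the curve `E` -/
theorem core_E {E : WeierstrassCurve K} {a b : K} (hE : E = sw a b)
    (hD : 4 * a ^ 3 + 27 * b ^ 2 ≠ 0) {m : ℕ}
    (hkill : ∀ (j : ℕ) (s : Sha E), 2 ^ j • s = 0 → 2 ^ m • s = 0)
    (s : GalSection K F M B)
    (pl : ∀ v : HeightOneSpectrum (𝓞 K), Plc K M (AlgebraicClosure (v.adicCompletion K)))
    (hp : ∀ v, s.GivenBy (v.adicCompletion K) (pl v))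
    (P : (E.baseChange F).toAffine.Point) {k : ℕ}
    (Q : (E.baseChange M).toAffine.Point)
    (hQ : 2 ^ (k + (m + 1)) • Q = pm E (IsScalarTower.toAlgHom K F M) P) :
    ∃ y : (E.baseChange K).toAffine.Point, LiftsDiff s E P y (2 ^ k) := by
  subst hE
  exact core2 hD hkill s pl hp P Q hQ

/-- the local points of a section, for the curve `E` -/
theorem local_E {E : WeierstrassCurve K} {a b : K} (hE : E = sw a b)
    (hD : 4 * a ^ 3 + 27 * b ^ 2 ≠ 0) (s : GalSection K F M B)
    {v : HeightOneSpectrum (𝓞 K)} {pl : Plc K M (AlgebraicClosure (v.adicCompletion K))}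
    (hp : GeoPlc (toSAct s) pl) (P : (E.baseChange F).toAffine.Point) :
    ∃ Pv : (E.baseChange (v.adicCompletion K)).toAffine.Point,
      (∃ u : M, u ≠ 0 ∧ ∀ j, ∃ h : u * algebraMap F M (crd P j) ∈ pl.W, pl.ρ ⟨_, h⟩ =
          algebraMap (v.adicCompletion K) (AlgebraicClosure (v.adicCompletion K)) (crd Pv j)) ∧
      ∀ (N : ℕ) (y : (E.baseChange K).toAffine.Point),
        LiftsDiff s E P y N →
        ∃ z : (E.baseChange (v.adicCompletion K)).toAffine.Point,
          Pv = pm E (Algebra.ofId K (v.adicCompletion K)) y + N • z := by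
  subst hE
  exact local2 hD s hp P

/-- the local points of a section, in the closed subset -/
theorem local_all {E : Fin n → WeierstrassCurve K} {a b : Fin n → K} (hE : ∀ i, E i = sw (a i) (b i))
    (hD : ∀ i, 4 * (a i) ^ 3 + 27 * (b i) ^ 2 ≠ 0) {S : Set (MvPolynomial (Fin n × Fin 3) K)}
    (hS : ∀ f ∈ S, ∃ d, MultiHom d f)
    (P : (i : Fin n) → ((E i).baseChange F).toAffine.Point)
    (hPS : OnX S (fun i => crd (P i))) (s : GalSection K F M B)
    (pl : ∀ v : HeightOneSpectrum (𝓞 K), Plc K M (AlgebraicClosure (v.adicCompletion K)))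
    (hp : ∀ v, s.GivenBy (v.adicCompletion K) (pl v)) (v : HeightOneSpectrum (𝓞 K)) :
    ∃ Pv : (i : Fin n) → ((E i).baseChange (v.adicCompletion K)).toAffine.Point,
      OnX S (fun i => crd (Pv i)) ∧
      (∀ i, (pl v).Spec (fun j => algebraMap F M (crd (P i) j)) (fun j =>
        algebraMap (v.adicCompletion K) (AlgebraicClosure (v.adicCompletion K)) (crd (Pv i) j))) ∧
      ∀ (i : Fin n) (N : ℕ) (y : ((E i).baseChange K).toAffine.Point),
        LiftsDiff s (E i) (P i) y N →
        ∃ z, Pv i = pm (E i) (Algebra.ofId K (v.adicCompletion K)) y + N • z := by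
  choose Pv h1 h2 using fun i => local_E (hE i) (hD i) s (geo s pl hp v) (P i)
  refine ⟨Pv, ?_, fun i => ?_, h2⟩
  · have hX : OnX S (fun i j => algebraMap (v.adicCompletion K)
        (AlgebraicClosure (v.adicCompletion K)) (crd (Pv i) j)) := by
      refine onX_red (pl v) hS (V := fun i j => algebraMap F M (crd (P i) j)) (fun i => ?_) ?_
      · obtain ⟨u, hu0, hu⟩ := h1 i
        exact ⟨u, hu0, fun j => hu j⟩
      · intro q hq
        have h3 := congrArg (IsScalarTower.toAlgHom K F M) (hPS q hq)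
        rw [map_zero, comp_aeval_apply] at h3
        exact h3
    intro f hf
    have h3 := hX f hf
    have h4 := aeval_algebraMap_apply (AlgebraicClosure (v.adicCompletion K))
      (fun t : Fin n × Fin 3 => crd (Pv t.1) t.2) f
    have h5 := h4.symm.trans h3
    exact (map_eq_zero _).1 h5
  · obtain ⟨u, hu0, hu⟩ := h1 i
    refine ⟨u, hu0, fun j => ?_⟩
    obtain ⟨h3, h4⟩ := hu j
    exact ⟨h3, h4⟩

end one

/-- points which differ from a rational point by a point divisible by all powers of two -/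
theorem rational_of {W : WeierstrassCurve ℤ} (hW : W.a₁ = 0 ∧ W.a₂ = 0 ∧ W.a₃ = 0)
    (hΔ : W.Δ ≠ 0) (hR : TorRat W) (hfin : Finite (bs W K).toAffine.Point)
    (v : HeightOneSpectrum (𝓞 K)) (hv1 : Ideal.absNorm v.asIdeal = 2)
    (hv2 : v.valuation K ((2 : ℕ) : K) = WithZero.exp (-1 : ℤ))
    (P : ((bs W K).baseChange (v.adicCompletion K)).toAffine.Point)
    (y : ((bs W K).baseChange K).toAffine.Point)
    (h : ∀ k : ℕ, ∃ z, P = pm (bs W K) (Algebra.ofId K (v.adicCompletion K)) y + 2 ^ k • z) :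
    ∃ (x : ((bs W K).baseChange K).toAffine.Point) (m : ℕ), Odd m ∧ m • (x - y) = 0 ∧
      P = pm (bs W K) (Algebra.ofId K (v.adicCompletion K)) x := by
  have : CharZero (v.adicCompletion K) :=
    charZero_of_injective_algebraMap (algebraMap K (v.adicCompletion K)).injective
  obtain ⟨e⟩ := split_iso v hv1 hv2
  let g : v.adicCompletion K →+* ℚ_[2] := e.symm.toRingHom
  have hg : Function.Injective g := e.symm.injective
  obtain ⟨φ, hφ⟩ : ∃ φ : ((bs W K).baseChange (v.adicCompletion K)).toAffine.Point →+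
      (bs W ℚ_[2]).toAffine.Point, ∀ P j, crd (φ P) j = g (crd P j) := by
    refine transp g _ _ ?_
    show ((bs W K).map (algebraMap K (v.adicCompletion K))).map g = _
    rw [bs_map, bs_map]
  have hφi : Function.Injective φ := by
    intro P1 P2 h12
    apply crd_injective
    funext j
    apply hg
    rw [← hφ, ← hφ, h12]
  set yv := pm (bs W K) (Algebra.ofId K (v.adicCompletion K)) y with hyv
  -- the difference has odd order
  obtain ⟨m, hm, hm2⟩ := Pool.Agent.U860.DS.odd_of_div' (si_bs W hW.1 hW.2.1 hW.2.2)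
    (disc_bs W hW.1 hW.2.1 hW.2.2 hΔ) norm_two2 (φ (P - yv)) fun k => (by
      obtain ⟨z, hz⟩ := h k
      refine ⟨φ z, ?_⟩
      rw [← map_nsmul, hz, add_sub_cancel_left])
  have hm3 : m • (P - yv) = 0 := by
    apply hφi
    rw [map_nsmul, hm2, map_zero]
  -- the point has finite order
  have hfin' : Finite ((bs W K).baseChange K).toAffine.Point := hfin
  set c := Nat.card ((bs W K).baseChange K).toAffine.Point with hc
  have hc0 : 0 < c := Nat.card_pos
  have hcy : c • y = 0 := card_nsmul_eq_zero'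
  have hPt : (m * c) • P = 0 := by
    have h1 : P = (P - yv) + yv := (sub_add_cancel _ _).symm
    rw [h1, smul_add, mul_comm, mul_smul, hm3, smul_zero, zero_add, mul_comm, mul_smul, hyv,
      ← map_nsmul, hcy, map_zero, smul_zero]
  obtain ⟨x0, hx0⟩ := hR (φ P) (m * c) (Nat.mul_pos hm.pos hc0) (by rw [← map_nsmul, hPt, map_zero])
  obtain ⟨ψ, hψ⟩ : ∃ ψ : (bs W ℚ).toAffine.Point → ((bs W K).baseChange K).toAffine.Point,
      ∀ P j, crd (ψ P) j = algebraMap ℚ K (crd P j) := transp' (algebraMap ℚ K) _ _ (bs_map W _)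
  have hPx : P = pm (bs W K) (Algebra.ofId K (v.adicCompletion K)) (ψ x0) := by
    apply crd_injective
    funext j
    apply hg
    rw [← hφ, hx0, Pool.Agent.TH954.crd_pm, hψ]
    have e1 : (g.comp ((algebraMap K (v.adicCompletion K)).comp (algebraMap ℚ K))) =
        algebraMap ℚ ℚ_[2] := Subsingleton.elim _ _
    rw [← e1]
    rfl
  refine ⟨ψ x0, m, hm, ?_, hPx⟩
  apply pm_injective (E := bs W K) (Algebra.ofId K (v.adicCompletion K))
  rw [map_nsmul, map_sub, ← hPx, ← hyv, hm3, map_zero]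

end

end Pool.Agent.U188.TS
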